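import Mathlib

set_option autoImplicit false
open Function

namespace Pool.Agent.H.MP_301b8f_al

universe w
variable {M : Type w} (A : Subgroup (Equiv.Perm M)) (k : ℕ)

def Lab (γ : ℕ → FreeGroup ℕ) (E : Set (ℕ × M × M)) (l : (Fin k → M) → FreeGroup ℕ) : Prop :=
  ∀ n (a b : Fin k → M), Injective a → Injective b → (∀ i, (n, a i, b i) ∈ E) → l b = γ n * l a

def Ok (γ : ℕ → FreeGroup ℕ) (E : Set (ℕ × M × M)) : Prop :=
  E.Finite ∧ (∀ n, ∃ σ ∈ A, ∀ x y, (n, x, y) ∈ E → σ x = y) ∧ ∃ l, Lab k γ E l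

def NA : Prop := ∀ s : Set M, s.Finite → ∀ x ∉ s, ∀ F : Set M, F.Finite →
  ∃ τ ∈ A, (∀ y ∈ s, τ y = y) ∧ τ x ∉ F

variable {A k}

lemma forth (hNA : NA A) {γ : ℕ → FreeGroup ℕ} {E : Set (ℕ × M × M)} (h : Ok A k γ E) (n : ℕ)
    (x : M) : ∃ E', Ok A k γ E' ∧ E ⊆ E' ∧ ∃ y, (n, x, y) ∈ E' := by
  classical
  by_cases hx : ∃ y, (n, x, y) ∈ E
  · exact ⟨E, h, subset_rfl, hx⟩
  obtain ⟨hfin, hext, l, hl⟩ := h
  obtain ⟨σ, hσ, hσE⟩ := hext n
  obtain ⟨τ, hτ, h1, h2⟩ := hNA {y | ∃ x', (n, x', y) ∈ E}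
    ((hfin.image fun e => e.2.2).subset (by rintro y ⟨x', h⟩; exact ⟨_, h, rfl⟩)) (σ x)
    (by rintro ⟨x', h⟩; exact hx ⟨_, σ.injective (hσE _ _ h) ▸ h⟩)
    (insert x ((fun e => e.2.1) '' E ∪ (fun e => e.2.2) '' E))
    (((hfin.image _).union (hfin.image _)).insert x)
  simp only [Set.mem_insert_iff, Set.mem_union, not_or] at h2
  have hE : ∀ u v, (n, u, v) ∈ insert (n, x, τ (σ x)) E → (τ * σ) u = v := by
    rintro u v (h | h)
    · simp only [Prod.mk.injEq, true_and] at h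
      rw [h.1, h.2]; rfl
    · rw [Equiv.Perm.mul_apply, hσE u v h]
      exact h1 v ⟨u, h⟩
  refine ⟨insert (n, x, τ (σ x)) E, ⟨hfin.insert _, fun m => ?_,
    fun b => if ∃ i, b i = τ (σ x) then γ n * l fun i => (τ * σ)⁻¹ (b i) else l b,
    fun m a b ha hb he => ?_⟩, Set.subset_insert _ _, _, Set.mem_insert _ _⟩
  · by_cases hm : m = n
    · exact ⟨τ * σ, A.mul_mem hτ hσ, hm ▸ hE⟩
    · obtain ⟨ρ, hρ, h⟩ := hext m
      refine ⟨ρ, hρ, ?_⟩
      rintro u v (h' | h')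
      · exact absurd (congrArg Prod.fst h') hm
      · exact h u v h'
  · have e1 : ¬ ∃ i, a i = τ (σ x) := by
      rintro ⟨i, hi⟩
      rcases he i with h | h
      · simp only [Prod.mk.injEq] at h
        exact h2.1 (hi.symm.trans h.2.1)
      · exact h2.2.1 ⟨_, h, hi⟩
    simp only [if_neg e1]
    split_ifs with e2
    · obtain ⟨i, hi⟩ := e2
      have hm : m = n := by
        rcases he i with h | h
        · exact congrArg Prod.fst h
        · exact absurd ⟨_, h, hi⟩ h2.2.2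
      subst hm
      congr 2
      funext j
      rw [← hE _ _ (he j), Equiv.Perm.inv_eq_iff_eq]
    · refine hl m a b ha hb fun i => ?_
      rcases he i with h | h
      · simp only [Prod.mk.injEq] at h
        exact absurd ⟨i, h.2.2⟩ e2
      · exact h

def flip (E : Set (ℕ × M × M)) : Set (ℕ × M × M) := {e | (e.1, e.2.2, e.2.1) ∈ E}

lemma Ok.flip {γ : ℕ → FreeGroup ℕ} {E : Set (ℕ × M × M)} (h : Ok A k γ E) :
    Ok A k (fun n => (γ n)⁻¹) (flip E) := by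
  obtain ⟨hfin, hext, l, hl⟩ := h
  refine ⟨(hfin.image fun e => (e.1, e.2.2, e.2.1)).subset fun e he => ⟨_, he, rfl⟩,
    fun n => ?_, l, fun n a b ha hb he => ?_⟩
  · obtain ⟨σ, hσ, h⟩ := hext n
    exact ⟨σ⁻¹, A.inv_mem hσ, fun x y he => by rw [← h y x he]; simp⟩
  · rw [hl n b a hb ha he]; simp

lemma back (hNA : NA A) {γ : ℕ → FreeGroup ℕ} {E : Set (ℕ × M × M)} (h : Ok A k γ E) (n : ℕ)
    (y : M) : ∃ E', Ok A k γ E' ∧ E ⊆ E' ∧ ∃ x, (n, x, y) ∈ E' := by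
  obtain ⟨E', h1, h2, x, h3⟩ := forth hNA h.flip n y
  exact ⟨flip E', by simpa using h1.flip, fun e he => h2 (a := (e.1, e.2.2, e.2.1)) he, x, h3⟩

def Conn (E : Set (ℕ × M × M)) : (Fin k → M) → (Fin k → M) → Prop :=
  Relation.EqvGen fun a b => ∃ n, ∀ i, (n, a i, b i) ∈ E

lemma Conn.aut {E : Set (ℕ × M × M)} (hext : ∀ n, ∃ σ ∈ A, ∀ x y, (n, x, y) ∈ E → σ x = y)
    {a b : Fin k → M} (h : Conn E a b) : ∃ τ ∈ A, ∀ i, τ (a i) = b i := by
  induction h with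
  | rel a b h =>
    obtain ⟨n, h⟩ := h
    obtain ⟨σ, hσ, h'⟩ := hext n
    exact ⟨σ, hσ, fun i => h' _ _ (h i)⟩
  | refl a => exact ⟨1, A.one_mem, fun _ => rfl⟩
  | symm a b _ ih =>
    obtain ⟨τ, hτ, h⟩ := ih
    exact ⟨τ⁻¹, A.inv_mem hτ, fun i => by rw [← h i]; simp⟩
  | trans a b c _ _ ih1 ih2 =>
    obtain ⟨τ, hτ, h⟩ := ih1
    obtain ⟨σ, hσ, h'⟩ := ih2
    exact ⟨σ * τ, A.mul_mem hσ hτ, fun i => by rw [Equiv.Perm.mul_apply, h, h']⟩

lemma Conn.comp {E : Set (ℕ × M × M)} {a b : Fin k → M} (h : Conn E a b) (π : Fin k → Fin k) :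
    Conn E (a ∘ π) (b ∘ π) := by
  induction h with
  | rel a b h => exact .rel _ _ (h.imp fun n h i => h (π i))
  | refl a => exact .refl _
  | symm a b _ ih => exact .symm _ _ ih
  | trans a b c _ _ ih1 ih2 => exact .trans _ _ _ ih1 ih2

def Rig (A : Subgroup (Equiv.Perm M)) (k : ℕ) : Prop :=
  ∀ τ ∈ A, ∀ a : Fin k → M, Injective a → ∀ π : Equiv.Perm (Fin k),
    (∀ i, τ (a i) = a (π i)) → π = 1

lemma Rig.eq (hR : Rig A k) {τ : Equiv.Perm M} (hτ : τ ∈ A) {b : Fin k → M} (hb : Injective b)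
    {π π' : Equiv.Perm (Fin k)} (h : ∀ i, τ (b (π i)) = b (π' i)) : π = π' := by
  have := hR τ hτ (b ∘ π) (hb.comp π.injective) (π⁻¹ * π') (fun i => by simp [h])
  exact inv_mul_eq_one.1 this

lemma merge (hR : Rig A k) {γ : ℕ → FreeGroup ℕ} {E : Set (ℕ × M × M)} (h : Ok A k γ E)
    {a b : Fin k → M} (ha : Injective a) {σ : Equiv.Perm M} (hσ : σ ∈ A)
    (hab : ∀ i, σ (a i) = b i) : ∃ E', Ok A k γ E' ∧ E ⊆ E' ∧ Conn E' a b := by
  classical
  by_cases hc : Conn E a b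
  · exact ⟨E, h, subset_rfl, hc⟩
  obtain ⟨hfin, hext, l, hl⟩ := h
  have hb : Injective b := fun i j h => ha (σ.injective (by rw [hab, hab, h]))
  obtain ⟨n, hn⟩ := (hfin.image Prod.fst).exists_notMem
  have hn' : ∀ x y, (n, x, y) ∉ E := fun x y h => hn ⟨_, h, rfl⟩
  let μ : Set (Equiv.Perm (Fin k)) → FreeGroup ℕ := fun T =>
    if h : T.Nonempty then (l (b ∘ h.some))⁻¹ * γ n * l (a ∘ h.some) else 1
  refine ⟨E ∪ Set.range fun i => (n, a i, b i), ⟨hfin.union (Set.finite_range _), fun m => ?_,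
    fun c => l c * μ {π | Conn E c (b ∘ π)}, fun m c d hc' hd he => ?_⟩, Set.subset_union_left,
    .rel _ _ ⟨n, fun i => Or.inr ⟨i, rfl⟩⟩⟩
  · by_cases hm : m = n
    · subst hm
      refine ⟨σ, hσ, ?_⟩
      rintro x y (h | ⟨i, h⟩)
      · exact absurd h (hn' x y)
      · simp only [Prod.mk.injEq, true_and] at h
        rw [← h.1, ← h.2, hab]
    · obtain ⟨ρ, hρ, h⟩ := hext m
      refine ⟨ρ, hρ, ?_⟩
      rintro x y (h' | ⟨i, h'⟩)
      · exact h x y h'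
      · exact absurd (congrArg Prod.fst h').symm hm
  · by_cases hm : m = n
    · subst hm
      have : ∀ i, ∃ j, a j = c i ∧ b j = d i := by
        intro i
        rcases he i with h | ⟨j, h⟩
        · exact absurd h (hn' _ _)
        · exact ⟨j, by simpa using h⟩
      choose p hp1 hp2 using this
      have hp : Injective p := fun i j h => hc' (by rw [← hp1, ← hp1, h])
      let π : Equiv.Perm (Fin k) := Equiv.ofBijective p (Finite.injective_iff_bijective.1 hp)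
      obtain rfl : c = a ∘ π := funext fun i => (hp1 i).symm
      obtain rfl : d = b ∘ π := funext fun i => (hp2 i).symm
      have e1 : ¬ {π' : Equiv.Perm (Fin k) | Conn E (a ∘ π) (b ∘ π')}.Nonempty := by
        rintro ⟨π', h⟩
        obtain ⟨τ, hτ, h'⟩ := Conn.aut hext h
        have : π = π' := hR.eq (A.mul_mem hτ (A.inv_mem hσ)) hb fun i => by
          rw [← hab, Equiv.Perm.mul_apply, Equiv.Perm.inv_eq_iff_eq.2 rfl]
          exact h' i
        subst this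
        apply hc
        simpa [comp_def] using Conn.comp h π.symm
      have e2 : {π' : Equiv.Perm (Fin k) | Conn E (b ∘ π) (b ∘ π')}.Nonempty := ⟨π, .refl _⟩
      have e3 : e2.some = π := by
        obtain ⟨τ, hτ, h'⟩ := Conn.aut hext e2.some_mem
        exact (hR.eq hτ hb h').symm
      simp only [μ, dif_neg e1, dif_pos e2, e3]
      group
    · have he' : ∀ i, (m, c i, d i) ∈ E := by
        intro i
        rcases he i with h | ⟨j, h⟩
        · exact h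
        · exact absurd (congrArg Prod.fst h).symm hm
      have hcd : Conn E c d := .rel _ _ ⟨m, he'⟩
      have : {π : Equiv.Perm (Fin k) | Conn E d (b ∘ π)} =
          {π : Equiv.Perm (Fin k) | Conn E c (b ∘ π)} :=
        Set.ext fun π => ⟨fun h => Relation.EqvGen.trans _ _ _ hcd h,
          fun h => Relation.EqvGen.trans _ _ _ (.symm _ _ hcd) h⟩
      simp only [this, hl m c d hc' hd he', mul_assoc]

theorem core [Countable M] (hk : 1 ≤ k) (hNA : NA A) (hR : Rig A k)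
    (hcl : ∀ g : Equiv.Perm M, (∀ s : Set M, s.Finite → ∃ σ ∈ A, ∀ x ∈ s, g x = σ x) → g ∈ A) :
    ∃ ρ : FreeGroup ℕ →* Equiv.Perm M, (∀ w, ρ w ∈ A) ∧ ∀ a b : Fin k → M, Injective a →
      (∃ σ ∈ A, ∀ i, σ (a i) = b i) → ∃! w, ∀ i, ρ w (a i) = b i := by
  classical
  let St := {E : Set (ℕ × M × M) // Ok A k FreeGroup.of E}
  let s0 : St := ⟨∅, Set.finite_empty, fun n => ⟨1, A.one_mem, by simp⟩, fun _ => 1,
    fun n a b _ _ h => absurd (h ⟨0, hk⟩) (by simp)⟩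
  let D : (ℕ × M) ⊕ (ℕ × M) ⊕ ((Fin k → M) × (Fin k → M)) → Order.Cofinal St := fun t =>
    match t with
    | .inl (n, x) => ⟨{s | ∃ y, (n, x, y) ∈ s.1}, fun s => by
        obtain ⟨E, h1, h2, h3⟩ := forth hNA s.2 n x
        exact ⟨⟨E, h1⟩, h3, h2⟩⟩
    | .inr (.inl (n, y)) => ⟨{s | ∃ x, (n, x, y) ∈ s.1}, fun s => by
        obtain ⟨E, h1, h2, h3⟩ := back hNA s.2 n y
        exact ⟨⟨E, h1⟩, h3, h2⟩⟩
    | .inr (.inr (a, b)) => ⟨{s | Injective a → (∃ σ ∈ A, ∀ i, σ (a i) = b i) → Conn s.1 a b},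
        fun s => by
        by_cases h : Injective a ∧ ∃ σ ∈ A, ∀ i, σ (a i) = b i
        · obtain ⟨ha, σ, hσ, h⟩ := h
          obtain ⟨E, h1, h2, h3⟩ := merge hR s.2 ha hσ h
          exact ⟨⟨E, h1⟩, fun _ _ => h3, h2⟩
        · exact ⟨s, fun h1 h2 => absurd ⟨h1, h2⟩ h, le_rfl⟩⟩
  let := Encodable.ofCountable ((ℕ × M) ⊕ (ℕ × M) ⊕ ((Fin k → M) × (Fin k → M)))
  let I := Order.idealOfCofinals s0 D
  have meet := Order.cofinal_meets_idealOfCofinals s0 D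
  have fin : ∀ T : Set (ℕ × M × M), T.Finite → (∀ e ∈ T, ∃ s ∈ I, e ∈ s.1) →
      ∃ s ∈ I, T ⊆ s.1 := by
    intro T hT
    induction T, hT using Set.Finite.induction_on with
    | empty => exact fun _ => ⟨s0, Order.mem_idealOfCofinals s0 D, by simp⟩
    | insert _ _ ih =>
      intro h
      obtain ⟨s, hs, h1⟩ := ih fun e he => h e (Set.mem_insert_of_mem _ he)
      obtain ⟨t, ht, h2⟩ := h _ (Set.mem_insert _ _)
      obtain ⟨u, hu, h3, h4⟩ := I.directed s hs t ht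
      exact ⟨u, hu, Set.insert_subset (h4 h2) (h1.trans h3)⟩
  have h1 : ∀ n x, ∃ y, ∃ s ∈ I, (n, x, y) ∈ s.1 := fun n x => by
    obtain ⟨s, ⟨y, hy⟩, hs⟩ := meet (.inl (n, x))
    exact ⟨y, s, hs, hy⟩
  choose f hf using h1
  have h2 : ∀ n x y x' y', (∃ s ∈ I, (n, x, y) ∈ s.1) → (∃ s ∈ I, (n, x', y') ∈ s.1) →
      (x = x' ↔ y = y') := by
    rintro n x y x' y' ⟨s, hs, h1⟩ ⟨t, ht, h2⟩
    obtain ⟨u, -, h3, h4⟩ := I.directed s hs t ht
    obtain ⟨σ, -, h⟩ := u.2.2.1 n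
    rw [← h _ _ (h3 h1), ← h _ _ (h4 h2), σ.injective.eq_iff]
  have h3 : ∀ n x y, (∃ s ∈ I, (n, x, y) ∈ s.1) → f n x = y := fun n x y h =>
    (h2 n x _ x y (hf n x) h).1 rfl
  let g : ℕ → Equiv.Perm M := fun n => Equiv.ofBijective (f n)
    ⟨fun x x' h => (h2 n x _ x' _ (hf n x) (hf n x')).2 h, fun y => by
      obtain ⟨s, ⟨x, hx⟩, hs⟩ := meet (.inr (.inl (n, y)))
      exact ⟨x, h3 n x y ⟨s, hs, hx⟩⟩⟩
  have hg : ∀ n, g n ∈ A := by
    intro n
    refine hcl _ fun T hT => ?_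
    obtain ⟨s, -, hs⟩ := fin ((fun x => (n, x, f n x)) '' T) (hT.image _)
      (by rintro _ ⟨x, -, rfl⟩; exact hf n x)
    obtain ⟨σ, hσ, h⟩ := s.2.2.1 n
    exact ⟨σ, hσ, fun x hx => (h _ _ (hs ⟨x, hx, rfl⟩)).symm⟩
  let ρ : FreeGroup ℕ →* Equiv.Perm M := FreeGroup.lift g
  have key : ∀ (w : FreeGroup ℕ) (a : Fin k → M), Injective a → ∃ s ∈ I, ∀ t : St, s ≤ t →
      ∀ l, Lab k FreeGroup.of t.1 l → l (fun i => ρ w (a i)) = w * l a := by
    intro w
    induction w using FreeGroup.induction_on with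
    | C1 => exact fun a _ => ⟨s0, Order.mem_idealOfCofinals s0 D, fun t _ l _ => by simp⟩
    | of n =>
      intro a ha
      obtain ⟨s, hs, h⟩ := fin (Set.range fun i => (n, a i, f n (a i))) (Set.finite_range _)
        (by rintro _ ⟨i, rfl⟩; exact hf n _)
      refine ⟨s, hs, fun t ht l hl => hl n _ _ ha ((ρ _).injective.comp ha) fun i => ?_⟩
      simpa [ρ, g] using ht (h ⟨i, rfl⟩)
    | inv_of n ih =>
      intro a ha
      obtain ⟨s, hs, h⟩ := ih (fun i => ρ (FreeGroup.of n)⁻¹ (a i)) ((ρ _).injective.comp ha)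
      refine ⟨s, hs, fun t ht l hl => ?_⟩
      have := h t ht l hl
      simp only [← Equiv.Perm.mul_apply, ← map_mul, mul_inv_cancel, map_one,
        Equiv.Perm.one_apply] at this
      rw [eq_inv_mul_iff_mul_eq, ← this]
    | mul u v ihu ihv =>
      intro a ha
      obtain ⟨s, hs, h⟩ := ihv a ha
      obtain ⟨s', hs', h'⟩ := ihu (fun i => ρ v (a i)) ((ρ _).injective.comp ha)
      obtain ⟨r, hr, h4, h5⟩ := I.directed s hs s' hs'
      refine ⟨r, hr, fun t ht l hl => ?_⟩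
      simp only [map_mul, Equiv.Perm.mul_apply]
      rw [h' t (h5.trans ht) l hl, h t (h4.trans ht) l hl, mul_assoc]
  refine ⟨ρ, fun w => FreeGroup.range_lift_le (by rintro _ ⟨n, rfl⟩; exact hg n) ⟨w, rfl⟩,
    fun a b ha hab => existsUnique_of_exists_of_unique ?_ fun u v hu hv => ?_⟩
  · obtain ⟨s, hc, hs⟩ := meet (.inr (.inr (a, b)))
    replace hc := hc ha hab
    clear ha hab
    induction hc with
    | rel a b h =>
      obtain ⟨n, h⟩ := h
      exact ⟨FreeGroup.of n, fun i => by simpa [ρ, g] using h3 n _ _ ⟨s, hs, h i⟩⟩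
    | refl a => exact ⟨1, fun i => by simp⟩
    | symm a b _ ih =>
      obtain ⟨w, h⟩ := ih
      exact ⟨w⁻¹, fun i => by rw [← h i]; simp⟩
    | trans a b c _ _ ih1 ih2 =>
      obtain ⟨w, h⟩ := ih1
      obtain ⟨w', h'⟩ := ih2
      exact ⟨w' * w, fun i => by rw [map_mul, Equiv.Perm.mul_apply, h, h']⟩
  · obtain ⟨s, hs, h⟩ := key u a ha
    obtain ⟨s', hs', h'⟩ := key v a ha
    obtain ⟨r, -, h4, h5⟩ := I.directed s hs s' hs'
    obtain ⟨l, hl⟩ := r.2.2.2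
    have e1 := h r h4 l hl
    have e2 := h' r h5 l hl
    simp only [hu, hv] at e1 e2
    exact mul_right_cancel (e1.symm.trans e2)

end Pool.Agent.H.MP_301b8f_al
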